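import Mathlib

/-!
# MP_ece343_co, Q1: inverse small-ball theorem in growing dimension
-/

open MeasureTheory ProbabilityTheory Module
open scoped RealInnerProductSpace

namespace Pool.Agent.Results.MP_ece343_co.SmallBallSubspace

noncomputable section

/-! ## binomial weights -/

/-- weight of the value `2j - M` of a sum of `M` signs -/
def wt (M j : ℕ) : ℝ := (M.choose j : ℝ) / 2 ^ M

/-- the value of the sum -/
def sv (M j : ℕ) : ℝ := 2 * (j : ℝ) - M

lemma wt_nonneg (M j : ℕ) : 0 ≤ wt M j := by unfold wt; positivity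

lemma sum_wt (M : ℕ) : ∑ j ∈ Finset.range (M + 1), wt M j = 1 := by
  unfold wt
  rw [← Finset.sum_div]
  have h := Nat.sum_range_choose M
  have h' : (∑ j ∈ Finset.range (M + 1), (M.choose j : ℝ)) = 2 ^ M := by exact_mod_cast h
  rw [h']; field_simp

lemma cos_pow (M : ℕ) (θ : ℝ) :
    ((Real.cos θ : ℝ) : ℂ) ^ M =
      ∑ j ∈ Finset.range (M + 1), (wt M j : ℂ) * Complex.exp ((sv M j * θ : ℝ) * Complex.I) := by
  rw [Complex.ofReal_cos, Complex.cos, div_pow, add_pow, Finset.sum_div]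
  refine Finset.sum_congr rfl ?_
  intro j hj
  have hj' : j ≤ M := Nat.lt_succ_iff.mp (Finset.mem_range.mp hj)
  rw [← Complex.exp_nat_mul, ← Complex.exp_nat_mul, ← Complex.exp_add]
  have : (j : ℂ) * (↑θ * Complex.I) + ((M - j : ℕ) : ℂ) * (-↑θ * Complex.I)
      = ((sv M j * θ : ℝ) : ℂ) * Complex.I := by
    unfold sv
    push_cast [Nat.cast_sub hj']
    ring
  rw [this]
  unfold wt
  push_cast
  ring

/-- central weight bound -/
lemma central_sq (N : ℕ) : ((Nat.centralBinom N : ℝ) / 4 ^ N) ^ 2 ≤ 1 / (2 * N + 1) := by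
  induction N with
  | zero => simp [Nat.centralBinom]
  | succ N ih =>
    have h := Nat.succ_mul_centralBinom_succ N
    have h' : ((N : ℝ) + 1) * (Nat.centralBinom (N + 1) : ℝ)
        = 2 * (2 * N + 1) * Nat.centralBinom N := by exact_mod_cast h
    have e : (Nat.centralBinom (N + 1) : ℝ) / 4 ^ (N + 1)
        = ((2 * N + 1) / (2 * N + 2)) * ((Nat.centralBinom N : ℝ) / 4 ^ N) := by
      have : (Nat.centralBinom (N + 1) : ℝ) = 2 * (2 * N + 1) * Nat.centralBinom N / (N + 1) := by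
        rw [← h']; field_simp
      rw [this, pow_succ]
      field_simp
      ring
    rw [e, mul_pow]
    have h2 : ((2 * (N : ℝ) + 1) / (2 * N + 2)) ^ 2 * (1 / (2 * N + 1)) ≤ 1 / (2 * (N + 1) + 1) := by
      have hN : (0 : ℝ) ≤ N := Nat.cast_nonneg N
      rw [div_pow, div_mul_div_comm, div_le_div_iff₀ (by positivity) (by positivity)]
      nlinarith [sq_nonneg ((N : ℝ)), mul_nonneg hN hN, mul_nonneg hN (mul_nonneg hN hN)]
    calc _ ≤ ((2 * (N : ℝ) + 1) / (2 * N + 2)) ^ 2 * (1 / (2 * N + 1)) :=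
          mul_le_mul_of_nonneg_left ih (by positivity)
      _ ≤ _ := by push_cast; exact h2

/-- the largest weight -/
def p0 (N : ℕ) : ℝ := (Nat.centralBinom N : ℝ) / 4 ^ N

lemma p0_nonneg (N : ℕ) : 0 ≤ p0 N := by unfold p0; positivity

lemma wt_le (N j : ℕ) : wt (2 * N) j ≤ p0 N := by
  unfold wt p0
  have h := Nat.choose_le_centralBinom j N
  have e : (2 : ℝ) ^ (2 * N) = 4 ^ N := by rw [pow_mul]; norm_num
  rw [e]
  gcongr

lemma p0_le (N : ℕ) : p0 N ≤ 1 / Real.sqrt (2 * N + 1) := by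
  have h := central_sq N
  have h1 : p0 N ^ 2 ≤ (1 / Real.sqrt (2 * N + 1)) ^ 2 := by
    rw [div_pow, Real.sq_sqrt (by positivity)]
    simpa [p0] using h
  exact le_of_sq_le_sq h1 (by positivity)

/-- number of integers `j` with `2j - M + t` in a window -/
lemma card_window (M : ℕ) (t L : ℝ) (hL : 0 ≤ L) :
    (((Finset.range (M + 1)).filter (fun j => |sv M j + t| ≤ L)).card : ℝ) ≤ 1 + L := by
  classical
  set S := (Finset.range (M + 1)).filter (fun j => |sv M j + t| ≤ L)
  have hsub : S.image (fun j : ℕ => (j : ℤ)) ⊆ Finset.Icc ⌈((M : ℝ) - t - L) / 2⌉ ⌊((M : ℝ) - t + L) / 2⌋ := by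
    intro z hz
    rw [Finset.mem_image] at hz
    obtain ⟨j, hj, rfl⟩ := hz
    have hj2 := (Finset.mem_filter.mp hj).2
    rw [abs_le] at hj2
    unfold sv at hj2
    rw [Finset.mem_Icc]
    constructor
    · apply Int.ceil_le.mpr
      push_cast
      linarith [hj2.1]
    · apply Int.le_floor.mpr
      push_cast
      linarith [hj2.2]
  have hc := Finset.card_le_card hsub
  rw [Finset.card_image_of_injective _ (fun a b h => by exact_mod_cast h), Int.card_Icc] at hc
  have h1 : (⌊((M : ℝ) - t + L) / 2⌋ : ℝ) ≤ ((M : ℝ) - t + L) / 2 := Int.floor_le _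
  have h2 : ((M : ℝ) - t - L) / 2 ≤ (⌈((M : ℝ) - t - L) / 2⌉ : ℝ) := Int.le_ceil _
  have hc' : (S.card : ℝ) ≤ ((⌊((M : ℝ) - t + L) / 2⌋ + 1 - ⌈((M : ℝ) - t - L) / 2⌉).toNat : ℝ) := by
    exact_mod_cast hc
  rcases le_total 0 (⌊((M : ℝ) - t + L) / 2⌋ + 1 - ⌈((M : ℝ) - t - L) / 2⌉) with h | h
  · have e : (((⌊((M : ℝ) - t + L) / 2⌋ + 1 - ⌈((M : ℝ) - t - L) / 2⌉).toNat : ℤ) : ℝ)
        = ((⌊((M : ℝ) - t + L) / 2⌋ + 1 - ⌈((M : ℝ) - t - L) / 2⌉ : ℤ) : ℝ) := by
      rw [Int.toNat_of_nonneg h]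
    have e' : (((⌊((M : ℝ) - t + L) / 2⌋ + 1 - ⌈((M : ℝ) - t - L) / 2⌉).toNat : ℕ) : ℝ)
        = ((⌊((M : ℝ) - t + L) / 2⌋ + 1 - ⌈((M : ℝ) - t - L) / 2⌉ : ℤ) : ℝ) := by
      rw [← e]; norm_cast
    rw [e'] at hc'
    push_cast at hc'
    linarith
  · rw [Int.toNat_of_nonpos h] at hc'
    simp at hc'
    rw [hc']
    simp
    linarith

variable {E : Type*} [NormedAddCommGroup E] [InnerProductSpace ℝ E]

/-- the one-dimensional estimate constant -/
def rho (N : ℕ) (μ h : ℝ) : ℝ := p0 N * (1 + h / μ) + Real.exp (-h ^ 2 / 2)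

lemma rho_nonneg (N : ℕ) (μ h : ℝ) (hμ : 0 < μ) (hh : 0 ≤ h) : 0 ≤ rho N μ h := by
  unfold rho
  have := p0_nonneg N
  positivity

lemma one_dim (N : ℕ) (μ h : ℝ) (hμ : 0 < μ) (hh : 0 ≤ h) (p q : E) (hq : μ ≤ ‖q‖) :
    ∑ j ∈ Finset.range (2 * N + 1), wt (2 * N) j * Real.exp (-‖p + sv (2 * N) j • q‖ ^ 2 / 2)
      ≤ rho N μ h := by
  classical
  have hq0 : 0 < ‖q‖ := lt_of_lt_of_le hμ hq
  set t : ℝ := ⟪p, q⟫ / ‖q‖ ^ 2 with ht
  have key : ∀ s : ℝ, μ * |s + t| ≤ ‖p + s • q‖ := by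
    intro s
    have h1 : |⟪p + s • q, q⟫| ≤ ‖p + s • q‖ * ‖q‖ := abs_real_inner_le_norm _ _
    have h2 : ⟪p + s • q, q⟫ = ‖q‖ ^ 2 * (s + t) := by
      rw [inner_add_left, real_inner_smul_left, real_inner_self_eq_norm_sq, ht]
      field_simp
      ring
    rw [h2, abs_mul, abs_of_nonneg (by positivity : (0 : ℝ) ≤ ‖q‖ ^ 2)] at h1
    have h3 : ‖q‖ * |s + t| ≤ ‖p + s • q‖ := by
      have : (‖q‖ * |s + t|) * ‖q‖ ≤ ‖p + s • q‖ * ‖q‖ := by nlinarith
      exact le_of_mul_le_mul_right this hq0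
    calc μ * |s + t| ≤ ‖q‖ * |s + t| := by gcongr
      _ ≤ _ := h3
  have hterm : ∀ j ∈ Finset.range (2 * N + 1),
      wt (2 * N) j * Real.exp (-‖p + sv (2 * N) j • q‖ ^ 2 / 2) ≤
        (if |sv (2 * N) j + t| ≤ h / μ then p0 N else 0) + wt (2 * N) j * Real.exp (-h ^ 2 / 2) := by
    intro j _
    split_ifs with hc
    · have h1 : Real.exp (-‖p + sv (2 * N) j • q‖ ^ 2 / 2) ≤ 1 := by
        apply Real.exp_le_one_iff.mpr
        have := sq_nonneg ‖p + sv (2 * N) j • q‖
        linarith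
      have h2 := wt_le N j
      have h3 := wt_nonneg (2 * N) j
      have h4 : 0 ≤ wt (2 * N) j * Real.exp (-h ^ 2 / 2) := by positivity
      nlinarith
    · rw [zero_add]
      apply mul_le_mul_of_nonneg_left _ (wt_nonneg _ _)
      apply Real.exp_le_exp.mpr
      push Not at hc
      have h1 := key (sv (2 * N) j)
      have h2 : h ≤ ‖p + sv (2 * N) j • q‖ := by
        have : h = μ * (h / μ) := by field_simp
        rw [this]
        exact le_trans (mul_le_mul_of_nonneg_left hc.le hμ.le) h1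
      have h3 : h ^ 2 ≤ ‖p + sv (2 * N) j • q‖ ^ 2 := by gcongr
      linarith
  refine (Finset.sum_le_sum hterm).trans ?_
  rw [Finset.sum_add_distrib, ← Finset.sum_mul, sum_wt, one_mul, ← Finset.sum_filter,
    Finset.sum_const, nsmul_eq_mul]
  unfold rho
  have h1 := card_window (2 * N) t (h / μ) (by positivity)
  have h2 := p0_nonneg N
  have h3 : (((Finset.range (2 * N + 1)).filter (fun j => |sv (2 * N) j + t| ≤ h / μ)).card : ℝ)
      * p0 N ≤ (1 + h / μ) * p0 N := mul_le_mul_of_nonneg_right h1 h2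
  linarith

/-! ## averages -/

/-- the Gaussian average of a shifted signed sum, defined recursively -/
def avg (M : ℕ) : List E → E → ℝ
  | [], w => Real.exp (-‖w‖ ^ 2 / 2)
  | v :: l, w => ∑ j ∈ Finset.range (M + 1), wt M j * avg M l (w + sv M j • v)

lemma avg_nonneg (M : ℕ) (l : List E) : ∀ w : E, 0 ≤ avg M l w := by
  induction l with
  | nil => intro w; unfold avg; positivity
  | cons v l ih =>
    intro w; unfold avg
    exact Finset.sum_nonneg fun j _ => mul_nonneg (wt_nonneg _ _) (ih _)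

lemma avg_split (M : ℕ) (U : Submodule ℝ E) (l : List E) :
    (∀ v ∈ l, v ∈ U) → ∀ z1 ∈ U, ∀ z2 ∈ Uᗮ,
      avg M l (z1 + z2) = Real.exp (-‖z2‖ ^ 2 / 2) * avg M l z1 := by
  induction l with
  | nil =>
    intro _ z1 h1 z2 h2
    unfold avg
    rw [← Real.exp_add]
    congr 1
    have h := norm_add_sq_eq_norm_sq_add_norm_sq_real (x := z1) (y := z2)
      (Submodule.inner_right_of_mem_orthogonal h1 h2)
    have h' : ‖z1 + z2‖ ^ 2 = ‖z1‖ ^ 2 + ‖z2‖ ^ 2 := by
      simpa [sq] using h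
    rw [h']; ring
  | cons v l ih =>
    intro hv z1 h1 z2 h2
    unfold avg
    rw [Finset.mul_sum]
    refine Finset.sum_congr rfl fun j _ => ?_
    have hvU : v ∈ U := hv v (by simp)
    have e : z1 + z2 + sv M j • v = (z1 + sv M j • v) + z2 := by abel
    rw [e, ih (fun u hu => hv u (by simp [hu])) _ (U.add_mem h1 (U.smul_mem _ hvU)) z2 h2]
    ring

/-- every vector of the list is far from the span of the later ones -/
def Flag (μ : ℝ) : List E → Prop
  | [] => True
  | v :: l => (∀ u ∈ Submodule.span ℝ {x : E | x ∈ l}, μ ≤ ‖v - u‖) ∧ Flag μ l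

lemma flag_bound [FiniteDimensional ℝ E] (N : ℕ) (μ h : ℝ) (hμ : 0 < μ) (hh : 0 ≤ h) (l : List E) :
    Flag μ l → ∀ w : E, avg (2 * N) l w ≤ rho N μ h ^ l.length := by
  induction l with
  | nil =>
    intro _ w
    unfold avg
    simp only [List.length_nil, pow_zero]
    apply Real.exp_le_one_iff.mpr
    have := sq_nonneg ‖w‖
    linarith
  | cons v l ih =>
    intro hf w
    obtain ⟨hv, hl⟩ := hf
    set U : Submodule ℝ E := Submodule.span ℝ {x : E | x ∈ l} with hU
    have hmem : ∀ x ∈ l, x ∈ U := fun x hx => Submodule.subset_span hx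
    unfold avg
    set P := U.starProjection with hP
    have hdec : ∀ z : E, z = P z + (z - P z) := fun z => by abel
    have hort : ∀ z : E, z - P z ∈ Uᗮ := fun z => Submodule.sub_starProjection_mem_orthogonal z
    have hin : ∀ z : E, P z ∈ U := fun z => Submodule.starProjection_apply_mem U z
    have hstep : ∀ j, avg (2 * N) l (w + sv (2 * N) j • v) ≤
        Real.exp (-‖(w - P w) + sv (2 * N) j • (v - P v)‖ ^ 2 / 2) * rho N μ h ^ l.length := by
      intro j
      have e := hdec (w + sv (2 * N) j • v)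
      rw [e, avg_split (2 * N) U l hmem _ (hin _) _ (hort _)]
      have e2 : (w + sv (2 * N) j • v) - P (w + sv (2 * N) j • v)
          = (w - P w) + sv (2 * N) j • (v - P v) := by
        rw [map_add, map_smul, smul_sub]; abel
      rw [e2]
      exact mul_le_mul_of_nonneg_left (ih hl _) (Real.exp_pos _).le
    have hq : μ ≤ ‖v - P v‖ := hv _ (hin v)
    calc ∑ j ∈ Finset.range (2 * N + 1), wt (2 * N) j * avg (2 * N) l (w + sv (2 * N) j • v)
        ≤ ∑ j ∈ Finset.range (2 * N + 1), wt (2 * N) j *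
          (Real.exp (-‖(w - P w) + sv (2 * N) j • (v - P v)‖ ^ 2 / 2) * rho N μ h ^ l.length) :=
          Finset.sum_le_sum fun j _ => mul_le_mul_of_nonneg_left (hstep j) (wt_nonneg _ _)
      _ = (∑ j ∈ Finset.range (2 * N + 1), wt (2 * N) j *
          Real.exp (-‖(w - P w) + sv (2 * N) j • (v - P v)‖ ^ 2 / 2)) * rho N μ h ^ l.length := by
          rw [Finset.sum_mul]; exact Finset.sum_congr rfl fun j _ => by ring
      _ ≤ rho N μ h * rho N μ h ^ l.length := by
          apply mul_le_mul_of_nonneg_right (one_dim N μ h hμ hh _ _ hq)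
          exact pow_nonneg (rho_nonneg N μ h hμ hh) _
      _ = rho N μ h ^ (v :: l).length := by rw [List.length_cons, pow_succ]; ring


/-! ## integrals against the standard Gaussian -/

section gauss

variable [FiniteDimensional ℝ E] [MeasurableSpace E] [BorelSpace E]

lemma gauss_char (w : E) :
    ∫ η : E, Complex.exp ((⟪η, w⟫ : ℝ) * Complex.I) ∂(stdGaussian E) =
      ((Real.exp (-‖w‖ ^ 2 / 2) : ℝ) : ℂ) := by
  have h := charFun_stdGaussian (E := E) w
  rw [charFun_apply] at h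
  rw [h]
  push_cast
  rfl

/-- product of powers of cosines along a list -/
def cosProd (M : ℕ) (l : List E) (η : E) : ℝ := (l.map (fun v => (Real.cos ⟪η, v⟫) ^ M)).prod

lemma cosProd_cons (M : ℕ) (v : E) (l : List E) (η : E) :
    cosProd M (v :: l) η = (Real.cos ⟪η, v⟫) ^ M * cosProd M l η := by
  unfold cosProd; simp

lemma cosProd_cont (M : ℕ) (l : List E) : Continuous (cosProd M l) := by
  induction l with
  | nil => unfold cosProd; simpa using continuous_const
  | cons v l ih =>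
    have : cosProd M (v :: l) = fun η => (Real.cos ⟪η, v⟫) ^ M * cosProd M l η := by
      funext η; exact cosProd_cons M v l η
    rw [this]
    fun_prop

lemma cosProd_abs (M : ℕ) (l : List E) (η : E) : |cosProd M l η| ≤ 1 := by
  induction l with
  | nil => unfold cosProd; simp
  | cons v l ih =>
    rw [cosProd_cons, abs_mul, abs_pow]
    have h1 : |Real.cos ⟪η, v⟫| ^ M ≤ 1 := pow_le_one₀ (abs_nonneg _) (Real.abs_cos_le_one _)
    calc _ ≤ 1 * 1 := mul_le_mul h1 ih (abs_nonneg _) zero_le_one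
      _ = 1 := by ring

lemma integrable_cosProd (M : ℕ) (l : List E) (w : E) :
    Integrable (fun η : E => (cosProd M l η : ℂ) * Complex.exp ((⟪η, w⟫ : ℝ) * Complex.I))
      (stdGaussian E) := by
  apply Integrable.of_bound (C := 1)
  · apply Continuous.aestronglyMeasurable
    have := cosProd_cont M l
    fun_prop
  · filter_upwards with η
    rw [norm_mul, Complex.norm_exp_ofReal_mul_I, mul_one, Complex.norm_real]
    exact cosProd_abs M l η

lemma int_avg (M : ℕ) (l : List E) : ∀ w : E,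
    ∫ η : E, (cosProd M l η : ℂ) * Complex.exp ((⟪η, w⟫ : ℝ) * Complex.I) ∂(stdGaussian E)
      = ((avg M l w : ℝ) : ℂ) := by
  induction l with
  | nil =>
    intro w
    unfold avg cosProd
    simpa using gauss_char w
  | cons v l ih =>
    intro w
    have e : ∀ η : E, (cosProd M (v :: l) η : ℂ) * Complex.exp ((⟪η, w⟫ : ℝ) * Complex.I)
        = ∑ j ∈ Finset.range (M + 1), (wt M j : ℂ) *
          ((cosProd M l η : ℂ) * Complex.exp ((⟪η, w + sv M j • v⟫ : ℝ) * Complex.I)) := by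
      intro η
      rw [cosProd_cons]
      push_cast
      have hc := cos_pow M ⟪η, v⟫
      rw [Complex.ofReal_cos] at hc
      rw [hc, Finset.sum_mul, Finset.sum_mul]
      refine Finset.sum_congr rfl fun j _ => ?_
      have e2 : Complex.exp ((⟪η, w + sv M j • v⟫ : ℝ) * Complex.I)
          = Complex.exp ((sv M j * ⟪η, v⟫ : ℝ) * Complex.I) * Complex.exp ((⟪η, w⟫ : ℝ) * Complex.I) := by
        rw [← Complex.exp_add]
        congr 1
        rw [inner_add_right, real_inner_smul_right]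
        push_cast
        ring
      push_cast at e2
      push_cast
      rw [e2]
      ring
    simp_rw [e]
    rw [integral_finsetSum _ (fun j _ => (integrable_cosProd M l _).const_mul _)]
    unfold avg
    push_cast
    refine Finset.sum_congr rfl fun j _ => ?_
    rw [integral_const_mul, ih]

lemma int_cosProd (M : ℕ) (l : List E) :
    ∫ η : E, cosProd M l η ∂(stdGaussian E) = avg M l 0 := by
  have h := int_avg M l 0
  have e : ∀ η : E, (cosProd M l η : ℂ) * Complex.exp ((⟪η, (0 : E)⟫ : ℝ) * Complex.I)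
      = ((cosProd M l η : ℝ) : ℂ) := by
    intro η; simp
  simp_rw [e] at h
  rw [integral_complex_ofReal] at h
  exact_mod_cast h

/-- the signed sum `∑ x i • a i` for a sign pattern `x` -/
def ssum {ι : Type*} [Fintype ι] (a : ι → E) (x : ι → ℤˣ) : E := ∑ i, ((x i : ℤ) : ℝ) • a i

lemma sum_signs {ι : Type*} [Fintype ι] [DecidableEq ι] (a : ι → E) (η : E) :
    ∑ x : ι → ℤˣ, Complex.exp ((⟪η, ssum a x⟫ : ℝ) * Complex.I)
      = 2 ^ Fintype.card ι * ((∏ i, Real.cos ⟪η, a i⟫ : ℝ) : ℂ) := by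
  have e : ∀ x : ι → ℤˣ, Complex.exp ((⟪η, ssum a x⟫ : ℝ) * Complex.I)
      = ∏ i, Complex.exp ((((x i : ℤ) : ℝ) * ⟪η, a i⟫ : ℝ) * Complex.I) := by
    intro x
    rw [← Complex.exp_sum]
    congr 1
    unfold ssum
    rw [inner_sum, Complex.ofReal_sum, Finset.sum_mul]
    refine Finset.sum_congr rfl fun i _ => ?_
    rw [real_inner_smul_right]
  simp_rw [e]
  have h := Finset.prod_univ_sum (κ := fun _ : ι => ℤˣ) (fun _ : ι => (Finset.univ : Finset ℤˣ))
    (fun i s => Complex.exp ((((s : ℤ) : ℝ) * ⟪η, a i⟫ : ℝ) * Complex.I))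
  rw [Fintype.piFinset_univ] at h
  rw [← h]
  have h2 : ∀ i, ∑ s : ℤˣ, Complex.exp ((((s : ℤ) : ℝ) * ⟪η, a i⟫ : ℝ) * Complex.I)
      = 2 * ((Real.cos ⟪η, a i⟫ : ℝ) : ℂ) := by
    intro i
    have hu : (Finset.univ : Finset ℤˣ) = {1, -1} := by decide
    rw [hu, Finset.sum_pair (by decide), Complex.ofReal_cos, Complex.cos]
    push_cast
    ring_nf
  simp_rw [h2]
  rw [Finset.prod_mul_distrib, Finset.prod_const, Finset.card_univ]
  push_cast
  ring

lemma prob_bound {ι : Type*} [Fintype ι] [DecidableEq ι] (a : ι → E) (b : E)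
    (S : Finset (ι → ℤˣ)) (hS : ∀ x ∈ S, ‖ssum a x - b‖ ≤ 1) :
    (S.card : ℝ) / 2 ^ Fintype.card ι ≤
      Real.exp (1 / 2) * ∫ η : E, ∏ i, |Real.cos ⟪η, a i⟫| ∂(stdGaussian E) := by
  have h1 : (S.card : ℝ) ≤ Real.exp (1 / 2) * ∑ x : ι → ℤˣ, Real.exp (-‖ssum a x - b‖ ^ 2 / 2) := by
    have : (S.card : ℝ) = ∑ x ∈ S, (1 : ℝ) := by simp
    rw [this, Finset.mul_sum]
    calc ∑ x ∈ S, (1 : ℝ) ≤ ∑ x ∈ S, Real.exp (1 / 2) * Real.exp (-‖ssum a x - b‖ ^ 2 / 2) := by
          apply Finset.sum_le_sum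
          intro x hx
          rw [← Real.exp_add]
          apply Real.one_le_exp
          have := hS x hx
          have h0 := norm_nonneg (ssum a x - b)
          nlinarith
      _ ≤ _ := Finset.sum_le_sum_of_subset_of_nonneg (Finset.subset_univ _)
          (fun _ _ _ => by positivity)
  have h2 : ((∑ x : ι → ℤˣ, Real.exp (-‖ssum a x - b‖ ^ 2 / 2) : ℝ) : ℂ)
      = 2 ^ Fintype.card ι * ∫ η : E, ((∏ i, Real.cos ⟪η, a i⟫ : ℝ) : ℂ) *
        Complex.exp ((⟪η, -b⟫ : ℝ) * Complex.I) ∂(stdGaussian E) := by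
    rw [Complex.ofReal_sum]
    simp_rw [← gauss_char]
    rw [← integral_finsetSum, ← integral_const_mul]
    · congr 1
      funext η
      rw [← mul_assoc, ← sum_signs, Finset.sum_mul]
      refine Finset.sum_congr rfl fun x _ => ?_
      rw [← Complex.exp_add]
      congr 1
      rw [sub_eq_add_neg, inner_add_right]
      push_cast
      ring
    · intro x _
      apply Integrable.of_bound (C := 1)
      · exact Continuous.aestronglyMeasurable (by fun_prop)
      · filter_upwards with η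
        rw [Complex.norm_exp_ofReal_mul_I]
  have h3 : ∑ x : ι → ℤˣ, Real.exp (-‖ssum a x - b‖ ^ 2 / 2)
      ≤ 2 ^ Fintype.card ι * ∫ η : E, ∏ i, |Real.cos ⟪η, a i⟫| ∂(stdGaussian E) := by
    have h4 : ‖((∑ x : ι → ℤˣ, Real.exp (-‖ssum a x - b‖ ^ 2 / 2) : ℝ) : ℂ)‖
        = ∑ x : ι → ℤˣ, Real.exp (-‖ssum a x - b‖ ^ 2 / 2) := by
      rw [Complex.norm_real]
      exact abs_of_nonneg (Finset.sum_nonneg fun _ _ => (Real.exp_pos _).le)
    rw [← h4, h2, norm_mul, norm_pow, Complex.norm_ofNat]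
    gcongr
    refine (norm_integral_le_integral_norm _).trans (le_of_eq ?_)
    congr 1
    funext η
    rw [norm_mul, Complex.norm_exp_ofReal_mul_I, mul_one, Complex.norm_real, Real.norm_eq_abs,
      Finset.abs_prod]
  rw [div_le_iff₀ (by positivity)]
  calc (S.card : ℝ) ≤ Real.exp (1 / 2) * ∑ x : ι → ℤˣ, Real.exp (-‖ssum a x - b‖ ^ 2 / 2) := h1
    _ ≤ Real.exp (1 / 2) * (2 ^ Fintype.card ι *
        ∫ η : E, ∏ i, |Real.cos ⟪η, a i⟫| ∂(stdGaussian E)) := by gcongr
    _ = _ := by ring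

end gauss


/-! ## greedy choice of disjoint flags -/

lemma step_list [FiniteDimensional ℝ E] {ι : Type*} [Fintype ι] [DecidableEq ι] (a : ι → E)
    (δ lam R : ℝ) (hlam : 0 < lam) (k : ℕ)
    (hfar : ∀ U : Submodule ℝ E, finrank ℝ U ≤ k →
      R < (((Finset.univ : Finset ι).filter (fun i => δ < Metric.infDist (a i) (U : Set E))).card : ℝ))
    (T : Finset ι) (hT : (T.card : ℝ) + (k + 1) ≤ R) :
    ∀ j : ℕ, j ≤ k + 1 → ∃ l : List ι, l.length = j ∧ l.Nodup ∧ (∀ i ∈ l, i ∉ T) ∧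
      Flag (lam * δ) (l.map (fun i => lam • a i)) := by
  classical
  intro j
  induction j with
  | zero =>
    intro _
    exact ⟨[], rfl, List.nodup_nil, by simp, by simp [Flag]⟩
  | succ j ih =>
    intro hj
    obtain ⟨l, hl, hnd, hdis, hflag⟩ := ih (by omega)
    set U : Submodule ℝ E := Submodule.span ℝ {x : E | x ∈ l.map (fun i => lam • a i)} with hU
    have hfin : finrank ℝ U ≤ k := by
      have h1 : {x : E | x ∈ l.map (fun i => lam • a i)}
          = ((l.map (fun i => lam • a i)).toFinset : Set E) := by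
        ext x; simp
      have h2 : finrank ℝ U ≤ (l.map (fun i => lam • a i)).toFinset.card := by
        rw [hU, h1]
        exact finrank_span_finset_le_card _
      have h3 := List.toFinset_card_le (l.map (fun i => lam • a i))
      rw [List.length_map] at h3
      omega
    have hF := hfar U hfin
    set F := (Finset.univ : Finset ι).filter (fun i => δ < Metric.infDist (a i) (U : Set E)) with hFdef
    have hcard : (T ∪ l.toFinset).card < F.card := by
      have h1 := Finset.card_union_le T l.toFinset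
      have h2 := List.toFinset_card_le l
      have h3 : ((T ∪ l.toFinset).card : ℝ) ≤ T.card + k := by
        have : (T ∪ l.toFinset).card ≤ T.card + k := by omega
        exact_mod_cast this
      have h4 : ((T ∪ l.toFinset).card : ℝ) < F.card := by linarith
      exact_mod_cast h4
    obtain ⟨i, hiF, hiT⟩ := Finset.exists_mem_notMem_of_card_lt_card hcard
    rw [Finset.mem_union, not_or, List.mem_toFinset] at hiT
    refine ⟨i :: l, by simp [hl], List.nodup_cons.mpr ⟨hiT.2, hnd⟩, ?_, ?_⟩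
    · intro x hx
      rcases List.mem_cons.mp hx with rfl | hx
      · exact hiT.1
      · exact hdis x hx
    · rw [List.map_cons]
      refine ⟨?_, hflag⟩
      intro u hu
      have hi2 : δ < Metric.infDist (a i) (U : Set E) := (Finset.mem_filter.mp hiF).2
      have hu' : lam⁻¹ • u ∈ U := U.smul_mem _ hu
      have h1 : Metric.infDist (a i) (U : Set E) ≤ dist (a i) (lam⁻¹ • u) :=
        Metric.infDist_le_dist_of_mem hu'
      have h2 : lam • a i - u = lam • (a i - lam⁻¹ • u) := by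
        rw [smul_sub, smul_smul, mul_inv_cancel₀ hlam.ne', one_smul]
      rw [h2, norm_smul, Real.norm_of_nonneg hlam.le]
      rw [dist_eq_norm] at h1
      have : δ ≤ ‖a i - lam⁻¹ • u‖ := by linarith
      gcongr

lemma greedy [FiniteDimensional ℝ E] {ι : Type*} [Fintype ι] [DecidableEq ι] (a : ι → E)
    (δ lam R : ℝ) (hlam : 0 < lam) (k : ℕ)
    (hfar : ∀ U : Submodule ℝ E, finrank ℝ U ≤ k →
      R < (((Finset.univ : Finset ι).filter (fun i => δ < Metric.infDist (a i) (U : Set E))).card : ℝ)) :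
    ∀ m : ℕ, (m : ℝ) * (k + 1) ≤ R → ∃ g : ℕ → List ι,
      (∀ i < m, (g i).length = k + 1 ∧ (g i).Nodup ∧
        Flag (lam * δ) ((g i).map (fun i => lam • a i))) ∧
      (∀ i < m, ∀ j < m, i ≠ j → ∀ x ∈ g i, x ∉ g j) := by
  classical
  intro m
  induction m with
  | zero => intro _; exact ⟨fun _ => [], by simp, by simp⟩
  | succ m ih =>
    intro hm
    have hm' : (m : ℝ) * (k + 1) ≤ R := by
      push_cast at hm
      have : (0 : ℝ) ≤ k + 1 := by positivity
      nlinarith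
    obtain ⟨g, hg1, hg2⟩ := ih hm'
    set T : Finset ι := (Finset.range m).biUnion (fun i => (g i).toFinset) with hT
    have hTc : (T.card : ℝ) ≤ m * (k + 1) := by
      have h1 : T.card ≤ ∑ i ∈ Finset.range m, (g i).toFinset.card := Finset.card_biUnion_le
      have h2 : ∑ i ∈ Finset.range m, (g i).toFinset.card ≤ ∑ i ∈ Finset.range m, (k + 1) := by
        apply Finset.sum_le_sum
        intro i hi
        have h3 := List.toFinset_card_le (g i)
        rw [(hg1 i (Finset.mem_range.mp hi)).1] at h3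
        exact h3
      rw [Finset.sum_const, Finset.card_range, smul_eq_mul] at h2
      exact_mod_cast h1.trans h2
    obtain ⟨l, hl1, hl2, hl3, hl4⟩ := step_list a δ lam R hlam k hfar T (by push_cast at hm; nlinarith)
      (k + 1) le_rfl
    refine ⟨Function.update g m l, ?_, ?_⟩
    · intro i hi
      rcases Nat.lt_succ_iff_lt_or_eq.mp hi with h | h
      · rw [Function.update_of_ne (by omega)]
        exact hg1 i h
      · subst h
        rw [Function.update_self]
        exact ⟨hl1, hl2, hl4⟩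
    · intro i hi j hj hij x hx
      have hmemT : ∀ i < m, ∀ x ∈ g i, x ∈ T := by
        intro i hi x hx
        rw [hT, Finset.mem_biUnion]
        exact ⟨i, Finset.mem_range.mpr hi, List.mem_toFinset.mpr hx⟩
      rcases Nat.lt_succ_iff_lt_or_eq.mp hi with h | h
      · rw [Function.update_of_ne (by omega)] at hx
        rcases Nat.lt_succ_iff_lt_or_eq.mp hj with h' | h'
        · rw [Function.update_of_ne (by omega)]
          exact hg2 i h j h' hij x hx
        · subst h'
          rw [Function.update_self]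
          intro hxl
          exact hl3 x hxl (hmemT i h x hx)
      · subst h
        rw [Function.update_self] at hx
        have h' : j < i := by omega
        rw [Function.update_of_ne (by omega)]
        intro hxj
        exact hl3 x hx (hmemT j h' x hxj)

lemma prod_le_sum_pow (M : ℕ) (hM : 0 < M) (x : ℕ → ℝ) (hx : ∀ m, 0 ≤ x m) :
    ∏ m ∈ Finset.range M, x m ≤ ∑ m ∈ Finset.range M, x m ^ M := by
  obtain ⟨m0, hm0, hmax⟩ := Finset.exists_max_image (Finset.range M) x
    ⟨0, Finset.mem_range.mpr hM⟩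
  calc ∏ m ∈ Finset.range M, x m ≤ ∏ _m ∈ Finset.range M, x m0 :=
        Finset.prod_le_prod (fun m _ => hx m) (fun m hm => hmax m hm)
    _ = x m0 ^ M := by rw [Finset.prod_const, Finset.card_range]
    _ ≤ _ := Finset.single_le_sum (f := fun m => x m ^ M) (fun m _ => pow_nonneg (hx m) _) hm0

lemma prod_disjoint_le {ι : Type*} [Fintype ι] [DecidableEq ι] (c : ι → ℝ) (hc0 : ∀ i, 0 ≤ c i)
    (hc1 : ∀ i, c i ≤ 1) (g : ℕ → List ι) (M : ℕ) (hnd : ∀ i < M, (g i).Nodup)
    (hdis : ∀ i < M, ∀ j < M, i ≠ j → ∀ x ∈ g i, x ∉ g j) :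
    ∏ i, c i ≤ ∏ m ∈ Finset.range M, ((g m).map c).prod := by
  classical
  set T : Finset ι := (Finset.range M).biUnion (fun i => (g i).toFinset) with hT
  have h1 : ∏ i, c i ≤ ∏ i ∈ T, c i := by
    rw [← Finset.prod_sdiff (Finset.subset_univ T)]
    have h2 : ∏ i ∈ Finset.univ \ T, c i ≤ 1 := Finset.prod_le_one (fun i _ => hc0 i) (fun i _ => hc1 i)
    have h3 : 0 ≤ ∏ i ∈ T, c i := Finset.prod_nonneg (fun i _ => hc0 i)
    nlinarith
  refine h1.trans (le_of_eq ?_)
  rw [hT, Finset.prod_biUnion]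
  · refine Finset.prod_congr rfl fun m hm => ?_
    rw [List.prod_toFinset c (hnd m (Finset.mem_range.mp hm))]
  · intro i hi j hj hij
    rw [Function.onFun, Finset.disjoint_left]
    intro x hx hx'
    exact hdis i (Finset.mem_range.mp (by simpa using hi)) j (Finset.mem_range.mp (by simpa using hj))
      hij x (List.mem_toFinset.mp hx) (List.mem_toFinset.mp hx')

lemma map_abs_pow (N : ℕ) (l : List E) (η : E) :
    ((l.map (fun v => |Real.cos ⟪η, v⟫|)).prod) ^ (2 * N) = cosProd (2 * N) l η := by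
  induction l with
  | nil => unfold cosProd; simp
  | cons v l ih =>
    unfold cosProd at *
    rw [List.map_cons, List.prod_cons, mul_pow, ih, List.map_cons, List.prod_cons, pow_mul, sq_abs,
      ← pow_mul]

lemma main_bound [FiniteDimensional ℝ E] [MeasurableSpace E] [BorelSpace E]
    {ι : Type*} [Fintype ι] [DecidableEq ι] (a : ι → E) (b : E)
    (δ lam R h : ℝ) (hδ : 0 < δ) (hlam : 0 < lam) (hh : 0 ≤ h) (k N : ℕ) (hN : 0 < N)
    (hNR : ((2 * N : ℕ) : ℝ) * (k + 1) ≤ R)
    (hfar : ∀ U : Submodule ℝ E, finrank ℝ U ≤ k →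
      R < (((Finset.univ : Finset ι).filter (fun i => δ < Metric.infDist (a i) (U : Set E))).card : ℝ))
    (S : Finset (ι → ℤˣ)) (hS : ∀ x ∈ S, ‖ssum a x - b‖ ≤ 1 / lam) :
    (S.card : ℝ) / 2 ^ Fintype.card ι ≤
      Real.exp (1 / 2) * ((2 * N : ℕ) * rho N (lam * δ) h ^ (k + 1)) := by
  classical
  obtain ⟨g, hg1, hg2⟩ := greedy a δ lam R hlam k hfar (2 * N) hNR
  set a' : ι → E := fun i => lam • a i with ha'
  have hS' : ∀ x ∈ S, ‖ssum a' x - lam • b‖ ≤ 1 := by
    intro x hx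
    have e : ssum a' x - lam • b = lam • (ssum a x - b) := by
      unfold ssum
      rw [smul_sub, Finset.smul_sum]
      congr 1
      refine Finset.sum_congr rfl fun i _ => ?_
      rw [ha']
      simp only
      rw [smul_comm]
    rw [e, norm_smul, Real.norm_of_nonneg hlam.le]
    have := hS x hx
    rw [le_div_iff₀ hlam] at this
    linarith
  refine (prob_bound a' (lam • b) S hS').trans ?_
  gcongr
  have hpt : ∀ η : E, ∏ i, |Real.cos ⟪η, a' i⟫| ≤
      ∑ m ∈ Finset.range (2 * N), cosProd (2 * N) ((g m).map a') η := by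
    intro η
    have h1 := prod_disjoint_le (fun i => |Real.cos ⟪η, a' i⟫|) (fun i => abs_nonneg _)
      (fun i => Real.abs_cos_le_one _) g (2 * N) (fun i hi => (hg1 i hi).2.1) hg2
    refine h1.trans ?_
    refine (prod_le_sum_pow (2 * N) (by omega)
      (fun m => ((g m).map (fun i => |Real.cos ⟪η, a' i⟫|)).prod) ?_).trans (le_of_eq ?_)
    · intro m
      apply List.prod_nonneg
      intro y hy
      obtain ⟨i, _, rfl⟩ := List.mem_map.mp hy
      exact abs_nonneg _
    · refine Finset.sum_congr rfl fun m _ => ?_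
      rw [← map_abs_pow, List.map_map]
      rfl
  have hint : ∀ m, Integrable (fun η : E => cosProd (2 * N) ((g m).map a') η) (stdGaussian E) := by
    intro m
    apply Integrable.of_bound (C := 1)
    · exact (cosProd_cont _ _).aestronglyMeasurable
    · filter_upwards with η
      rw [Real.norm_eq_abs]
      exact cosProd_abs _ _ _
  calc ∫ η : E, ∏ i, |Real.cos ⟪η, a' i⟫| ∂(stdGaussian E)
      ≤ ∫ η : E, ∑ m ∈ Finset.range (2 * N), cosProd (2 * N) ((g m).map a') η ∂(stdGaussian E) := by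
        apply integral_mono
        · apply Integrable.of_bound (C := 1)
          · apply Continuous.aestronglyMeasurable
            fun_prop
          · filter_upwards with η
            rw [Real.norm_eq_abs, Finset.abs_prod]
            apply Finset.prod_le_one
            · intro i _; exact abs_nonneg _
            · intro i _; rw [abs_abs]; exact Real.abs_cos_le_one _
        · exact integrable_finsetSum _ (fun m _ => hint m)
        · exact hpt
    _ = ∑ m ∈ Finset.range (2 * N), avg (2 * N) ((g m).map a') 0 := by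
        rw [integral_finsetSum _ (fun m _ => hint m)]
        exact Finset.sum_congr rfl fun m _ => int_cosProd _ _
    _ ≤ ∑ m ∈ Finset.range (2 * N), rho N (lam * δ) h ^ (k + 1) := by
        apply Finset.sum_le_sum
        intro m hm
        have hm' := hg1 m (Finset.mem_range.mp hm)
        have := flag_bound N (lam * δ) h (by positivity) hh _ hm'.2.2 0
        rw [List.length_map, hm'.1] at this
        exact this
    _ = _ := by rw [Finset.sum_const, Finset.card_range, nsmul_eq_mul]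


/-! ## numerical part -/

lemma rho_bound (ε : ℝ) (hε0 : 0 < ε) (hε1 : ε < 1) (k : ℕ) (x : ℝ) (hx1 : 1 ≤ x) (N : ℕ)
    (hN : x ^ ε / (2 * (k + 1)) ≤ 2 * N + 1) :
    rho N (x ^ (1 / 2 - ε)) (x ^ ((1 - ε) / 4)) ≤
      (2 * Real.sqrt (2 * (k + 1)) + 2) * x ^ (-(ε * (1 - ε) / 4)) := by
  have hx0 : 0 < x := by linarith
  set c : ℝ := ε * (1 - ε) / 4 with hc
  set A : ℝ := Real.sqrt (2 * (k + 1)) with hA
  have hA0 : 0 ≤ A := Real.sqrt_nonneg _
  have hp : p0 N ≤ A * x ^ (-(ε / 2)) := by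
    refine (p0_le N).trans ?_
    have h1 : Real.sqrt (x ^ ε / (2 * (k + 1))) ≤ Real.sqrt (2 * N + 1) := Real.sqrt_le_sqrt hN
    have h2 : Real.sqrt (x ^ ε / (2 * (k + 1))) = x ^ (ε / 2) / A := by
      rw [Real.sqrt_div (by positivity), Real.sqrt_eq_rpow (x ^ ε), ← Real.rpow_mul hx0.le]
      congr 2
      ring
    rw [h2] at h1
    have hApos : 0 < A := Real.sqrt_pos.mpr (by positivity)
    have h3 : 0 < x ^ (ε / 2) / A := by positivity
    calc 1 / Real.sqrt (2 * N + 1) ≤ 1 / (x ^ (ε / 2) / A) := one_div_le_one_div_of_le h3 h1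
      _ = A * x ^ (-(ε / 2)) := by
        rw [Real.rpow_neg hx0.le]; field_simp
  have e1 : x ^ (-(ε / 2)) ≤ x ^ (-c) := by
    apply Real.rpow_le_rpow_of_exponent_le hx1
    rw [hc]; nlinarith
  have e2 : x ^ (-(ε / 2)) * (x ^ ((1 - ε) / 4) / x ^ (1 / 2 - ε)) ≤ x ^ (-c) := by
    rw [← Real.rpow_sub hx0, ← Real.rpow_add hx0]
    apply Real.rpow_le_rpow_of_exponent_le hx1
    rw [hc]; nlinarith
  have e3 : Real.exp (-(x ^ ((1 - ε) / 4)) ^ 2 / 2) ≤ 2 * x ^ (-c) := by
    have h1 : (x ^ ((1 - ε) / 4)) ^ 2 = x ^ ((1 - ε) / 2) := by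
      rw [← Real.rpow_natCast, ← Real.rpow_mul hx0.le]
      congr 1
      push_cast
      ring
    rw [h1]
    have h2 : 0 < x ^ ((1 - ε) / 2) := by positivity
    have h3 : x ^ ((1 - ε) / 2) / 2 ≤ Real.exp (x ^ ((1 - ε) / 2) / 2) := by
      have := Real.add_one_le_exp (x ^ ((1 - ε) / 2) / 2)
      linarith
    have h4 : Real.exp (-x ^ ((1 - ε) / 2) / 2) = 1 / Real.exp (x ^ ((1 - ε) / 2) / 2) := by
      rw [neg_div, Real.exp_neg]; simp
    rw [h4]
    calc 1 / Real.exp (x ^ ((1 - ε) / 2) / 2) ≤ 1 / (x ^ ((1 - ε) / 2) / 2) :=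
          one_div_le_one_div_of_le (by positivity) h3
      _ = 2 * x ^ (-((1 - ε) / 2)) := by rw [Real.rpow_neg hx0.le]; field_simp
      _ ≤ 2 * x ^ (-c) := by
          apply mul_le_mul_of_nonneg_left _ (by norm_num)
          apply Real.rpow_le_rpow_of_exponent_le hx1
          rw [hc]; nlinarith
  unfold rho
  have hz : 0 ≤ x ^ ((1 - ε) / 4) / x ^ (1 / 2 - ε) := by positivity
  calc p0 N * (1 + x ^ ((1 - ε) / 4) / x ^ (1 / 2 - ε)) + Real.exp (-(x ^ ((1 - ε) / 4)) ^ 2 / 2)
      ≤ (A * x ^ (-(ε / 2))) * (1 + x ^ ((1 - ε) / 4) / x ^ (1 / 2 - ε)) + 2 * x ^ (-c) := by gcongr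
    _ = A * x ^ (-(ε / 2)) + A * (x ^ (-(ε / 2)) * (x ^ ((1 - ε) / 4) / x ^ (1 / 2 - ε)))
        + 2 * x ^ (-c) := by ring
    _ ≤ A * x ^ (-c) + A * x ^ (-c) + 2 * x ^ (-c) := by gcongr
    _ = _ := by ring

/-- The probability that the signed sum of the vectors `a i` with independent uniform signs lies
in `B`: the number of sign patterns whose signed sum lies in `B`, divided by `2 ^ n`. -/
def prob {n : ℕ} (a : Fin n → E) (B : Set E) : ℝ :=
  (Nat.card {x : Fin n → ℤˣ // ssum a x ∈ B} : ℝ) / 2 ^ n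

/-- **Small-ball inverse Littlewood-Offord theorem in growing dimension.**  For `0 < ε < 1` and
`C > 0` there is `K` such that for all `n ≥ 2`, all dimensions `d` and all vectors
`a 1, …, a n` of `ℝ^d`: if the signed sum with random signs lies in some closed ball of radius
`1/√n` with probability at least `n^(-C)`, then some linear subspace of dimension at most `K` lies
within distance `n^(-ε)` of all but at most `n^ε` of the `a i`. -/
theorem result (ε : ℝ) (hε0 : 0 < ε) (hε1 : ε < 1) (C : ℝ) (_hC : 0 < C) :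
    ∃ K : ℕ, ∀ n : ℕ, 2 ≤ n → ∀ d : ℕ, ∀ (a : Fin n → EuclideanSpace ℝ (Fin d))
      (b : EuclideanSpace ℝ (Fin d)),
      (n : ℝ) ^ (-C) ≤ prob a (Metric.closedBall b (1 / Real.sqrt n)) →
      ∃ S : Submodule ℝ (EuclideanSpace ℝ (Fin d)), finrank ℝ S ≤ K ∧
        (Nat.card {i : Fin n // (n : ℝ) ^ (-ε) < Metric.infDist (a i) (S : Set _)} : ℝ)
          ≤ (n : ℝ) ^ ε := by
  classical
  set c : ℝ := ε * (1 - ε) / 4 with hc
  have hc0 : 0 < c := by
    have : 0 < 1 - ε := by linarith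
    positivity
  obtain ⟨k, hk⟩ : ∃ k : ℕ, (C + 2) / c ≤ k := exists_nat_ge _
  set A : ℝ := 2 * Real.sqrt (2 * (k + 1)) + 2 with hA
  have hA0 : 0 < A := by positivity
  obtain ⟨n1, hn1⟩ : ∃ n1 : ℕ, (2 * ((k : ℝ) + 1)) ^ (1 / ε) ≤ n1 := exists_nat_ge _
  obtain ⟨n2, hn2⟩ : ∃ n2 : ℕ, Real.exp (1 / 2) * A ^ (k + 1) ≤ n2 := exists_nat_ge _
  refine ⟨k + n1 + n2, ?_⟩
  intro n hn d a b hprob
  by_contra hcon
  push Not at hcon
  have hfar : ∀ U : Submodule ℝ (EuclideanSpace ℝ (Fin d)), finrank ℝ U ≤ k + n1 + n2 →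
      (n : ℝ) ^ ε < (((Finset.univ : Finset (Fin n)).filter
        (fun i => (n : ℝ) ^ (-ε) < Metric.infDist (a i) (U : Set _))).card : ℝ) := by
    intro U hU
    have := hcon U hU
    rwa [Nat.card_eq_fintype_card, Fintype.card_subtype] at this
  have hx0 : (0 : ℝ) < n := by positivity
  have hx1 : (1 : ℝ) ≤ n := by exact_mod_cast (by omega : 1 ≤ n)
  -- large n
  have hbig : k + n1 + n2 < n := by
    by_contra hsmall
    push Not at hsmall
    set U : Submodule ℝ (EuclideanSpace ℝ (Fin d)) := Submodule.span ℝ (Set.range a) with hU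
    have h1 : finrank ℝ U ≤ n := by
      have := finrank_range_le_card (R := ℝ) a
      rw [Fintype.card_fin] at this
      exact this
    have h2 := hfar U (h1.trans hsmall)
    have h3 : ((Finset.univ : Finset (Fin n)).filter
        (fun i => (n : ℝ) ^ (-ε) < Metric.infDist (a i) (U : Set _))) = ∅ := by
      apply Finset.filter_eq_empty_iff.mpr
      intro i _
      have h4 : a i ∈ (U : Set _) := Submodule.subset_span ⟨i, rfl⟩
      rw [Metric.infDist_zero_of_mem h4]
      have : 0 < (n : ℝ) ^ (-ε) := by positivity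
      linarith
    rw [h3, Finset.card_empty] at h2
    have : 0 < (n : ℝ) ^ ε := by positivity
    push_cast at h2
    linarith
  have hn1' : (2 * ((k : ℝ) + 1)) ≤ (n : ℝ) ^ ε := by
    have h1 : (2 * ((k : ℝ) + 1)) ^ (1 / ε) ≤ n := hn1.trans (by exact_mod_cast (by omega : n1 ≤ n))
    have h2 : ((2 * ((k : ℝ) + 1)) ^ (1 / ε)) ^ ε ≤ (n : ℝ) ^ ε :=
      Real.rpow_le_rpow (by positivity) h1 hε0.le
    rw [← Real.rpow_mul (by positivity)] at h2
    have h3 : 1 / ε * ε = 1 := by field_simp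
    rwa [h3, Real.rpow_one] at h2
  have hn2' : Real.exp (1 / 2) * A ^ (k + 1) < n :=
    lt_of_le_of_lt hn2 (by exact_mod_cast (by omega : n2 < n))
  set y : ℝ := (n : ℝ) ^ ε / (2 * (k + 1)) with hy
  have hy1 : 1 ≤ y := by
    rw [hy, le_div_iff₀ (by positivity)]
    linarith
  set N : ℕ := ⌊y⌋₊ with hN
  have hN0 : 0 < N := Nat.floor_pos.mpr hy1
  have hNy : (N : ℝ) ≤ y := Nat.floor_le (by linarith)
  have hNy2 : y < N + 1 := Nat.lt_floor_add_one y
  have hNR : ((2 * N : ℕ) : ℝ) * (k + 1) ≤ (n : ℝ) ^ ε := by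
    push_cast
    have : (N : ℝ) * (2 * (k + 1)) ≤ (n : ℝ) ^ ε := by
      rwa [hy, le_div_iff₀ (by positivity)] at hNy
    linarith
  have hfar' : ∀ U : Submodule ℝ (EuclideanSpace ℝ (Fin d)), finrank ℝ U ≤ k →
      (n : ℝ) ^ ε < (((Finset.univ : Finset (Fin n)).filter
        (fun i => (n : ℝ) ^ (-ε) < Metric.infDist (a i) (U : Set _))).card : ℝ) :=
    fun U hU => hfar U (by omega)
  have hsqrt : Real.sqrt n = (n : ℝ) ^ ((1 : ℝ) / 2) := Real.sqrt_eq_rpow _
  have hlam : 0 < Real.sqrt n := Real.sqrt_pos.mpr hx0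
  set S : Finset (Fin n → ℤˣ) := Finset.univ.filter
    (fun x => ssum a x ∈ Metric.closedBall b (1 / Real.sqrt n)) with hSdef
  have hS : ∀ x ∈ S, ‖ssum a x - b‖ ≤ 1 / Real.sqrt n := by
    intro x hx
    have := (Finset.mem_filter.mp hx).2
    rwa [Metric.mem_closedBall, dist_eq_norm] at this
  have hmain := main_bound a b ((n : ℝ) ^ (-ε)) (Real.sqrt n) ((n : ℝ) ^ ε)
    ((n : ℝ) ^ ((1 - ε) / 4)) (by positivity) hlam (by positivity) k N hN0 hNR hfar' S hS
  have hμ : Real.sqrt n * (n : ℝ) ^ (-ε) = (n : ℝ) ^ (1 / 2 - ε) := by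
    rw [hsqrt, ← Real.rpow_add hx0]; congr 1
  rw [hμ, Fintype.card_fin] at hmain
  have hprob' : prob a (Metric.closedBall b (1 / Real.sqrt n)) = (S.card : ℝ) / 2 ^ n := by
    unfold prob
    rw [Nat.card_eq_fintype_card, Fintype.card_subtype]
  have hrho := rho_bound ε hε0 hε1 k n hx1 N (by linarith)
  have hrho0 : 0 ≤ rho N ((n : ℝ) ^ (1 / 2 - ε)) ((n : ℝ) ^ ((1 - ε) / 4)) :=
    rho_nonneg _ _ _ (by positivity) (by positivity)
  have h2N : ((2 * N : ℕ) : ℝ) ≤ n := by
    have h1 : (n : ℝ) ^ ε ≤ (n : ℝ) ^ (1 : ℝ) := Real.rpow_le_rpow_of_exponent_le hx1 hε1.le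
    rw [Real.rpow_one] at h1
    have h2 : (0 : ℝ) ≤ ((2 * N : ℕ) : ℝ) * k := by positivity
    nlinarith
  have hpow : rho N ((n : ℝ) ^ (1 / 2 - ε)) ((n : ℝ) ^ ((1 - ε) / 4)) ^ (k + 1)
      ≤ A ^ (k + 1) * (n : ℝ) ^ (-(C + 2)) := by
    calc _ ≤ (A * (n : ℝ) ^ (-c)) ^ (k + 1) := pow_le_pow_left₀ hrho0 hrho _
      _ = A ^ (k + 1) * ((n : ℝ) ^ (-c)) ^ (k + 1) := by rw [mul_pow]
      _ ≤ A ^ (k + 1) * (n : ℝ) ^ (-(C + 2)) := by
        gcongr
        rw [← Real.rpow_natCast, ← Real.rpow_mul hx0.le]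
        apply Real.rpow_le_rpow_of_exponent_le hx1
        push_cast
        rw [div_le_iff₀ hc0] at hk
        nlinarith
  have hfinal : (n : ℝ) ^ (-C) < (n : ℝ) ^ (-C) := by
    calc (n : ℝ) ^ (-C) ≤ (S.card : ℝ) / 2 ^ n := by rw [← hprob']; exact hprob
      _ ≤ Real.exp (1 / 2) * (((2 * N : ℕ) : ℝ) *
          rho N ((n : ℝ) ^ (1 / 2 - ε)) ((n : ℝ) ^ ((1 - ε) / 4)) ^ (k + 1)) := hmain
      _ ≤ Real.exp (1 / 2) * ((n : ℝ) * (A ^ (k + 1) * (n : ℝ) ^ (-(C + 2)))) := by gcongr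
      _ = (Real.exp (1 / 2) * A ^ (k + 1)) * ((n : ℝ) ^ (1 : ℝ) * (n : ℝ) ^ (-(C + 2))) := by
          rw [Real.rpow_one]; ring
      _ = (Real.exp (1 / 2) * A ^ (k + 1)) * ((n : ℝ) ^ (-(1 : ℝ)) * (n : ℝ) ^ (-C)) := by
          rw [← Real.rpow_add hx0, ← Real.rpow_add hx0]; congr 2; ring
      _ < (n : ℝ) * ((n : ℝ) ^ (-(1 : ℝ)) * (n : ℝ) ^ (-C)) := by gcongr
      _ = (n : ℝ) ^ (-C) := by
          rw [Real.rpow_neg hx0.le 1, Real.rpow_one]; field_simp
  exact lt_irrefl _ hfinal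

end

end Pool.Agent.Results.MP_ece343_co.SmallBallSubspace
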